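import Pool.Agent.helper16.GHS.Main

/-!
# MP_bf3f21_gt: graphs with an orientation-reversing automorphism vanish in A(∅; Z)

Theorem (`result`). Let `Γ` be a vertex-oriented trivalent graph with `2 d` vertices (loops and multiple edges
are allowed, `Γ` need not be connected). If `Γ` has an automorphism which reverses the cyclic order at an odd
number of vertices, then `[Γ] = 0` in the integral module `A(∅; Z)^(d)` (all graphs with `2 d` vertices modulo
AS and IHX). Isomorphism invariance and AS alone only give `2 [Γ] = 0`.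
-/

set_option autoImplicit false

namespace Pool.Agent.Results.MP_bf3f21_gt.SymmetricGraphs

open Equiv Finset

/-- The half-edges of a trivalent graph with the vertices `0, …, n - 1`: `(v, i)` is a half-edge at `v`. -/
abbrev HalfEdge (n : ℕ) : Type := Fin n × Fin 3

/-- A vertex-oriented trivalent graph with the vertices `0, …, n - 1`. The half-edges at `v` are
`(v, 0), (v, 1), (v, 2)`, in this cyclic order. The edges are the pairs `{h, mate h}`; `mate` is an involution
without fixed points. Loops and multiple edges are allowed. -/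
structure TGraph (n : ℕ) where
  /-- the other half of the edge of a half-edge -/
  mate : Perm (HalfEdge n)
  mate_mate : ∀ h, mate (mate h) = h
  mate_ne : ∀ h, mate h ≠ h

/-- The next half-edge in the cyclic order at the same vertex. -/
def next {n : ℕ} (h : HalfEdge n) : HalfEdge n := (h.1, h.2 + 1)

/-- The graph obtained from `Γ` by moving the ends of the edges with the permutation `g` of the half-edges:
the edges are the pairs `{g h, g (mate h)}`. -/
def TGraph.move {n : ℕ} (Γ : TGraph n) (g : Perm (HalfEdge n)) : TGraph n where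
  mate := g * Γ.mate * g⁻¹
  mate_mate h := by
    have h1 : ∀ x, g⁻¹ (g x) = x := fun x => g.symm_apply_apply x
    have h2 : ∀ x, g (g⁻¹ x) = x := fun x => g.apply_symm_apply x
    rw [Perm.mul_apply, Perm.mul_apply, Perm.mul_apply, Perm.mul_apply, h1, Γ.mate_mate, h2]
  mate_ne h := by
    intro h1
    have h2 : ∀ x, g (g⁻¹ x) = x := fun x => g.apply_symm_apply x
    rw [Perm.mul_apply, Perm.mul_apply] at h1
    have h3 : g (Γ.mate (g⁻¹ h)) = g (g⁻¹ h) := by rw [h1, h2]
    exact Γ.mate_ne _ (g.injective h3)

/-- An isomorphism of the underlying graphs: a bijection `f` of the half-edges which maps the half-edges at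
`v` to the half-edges at `σ v`, and edges to edges. -/
structure GIso {n : ℕ} (Γ Γ' : TGraph n) where
  /-- the map on the half-edges -/
  f : Perm (HalfEdge n)
  /-- the map on the vertices -/
  σ : Perm (Fin n)
  vertex : ∀ h, (f h).1 = σ h.1
  edge : ∀ h, f (Γ.mate h) = Γ'.mate (f h)

/-- The isomorphism respects the cyclic order at `v`. -/
def Keeps {n : ℕ} (f : Perm (HalfEdge n)) (v : Fin n) : Prop :=
  ∀ i : Fin 3, (f (v, i + 1)).2 = (f (v, i)).2 + 1

/-- The isomorphism reverses the cyclic order at `v`. -/
def Reverses {n : ℕ} (f : Perm (HalfEdge n)) (v : Fin n) : Prop :=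
  ∀ i : Fin 3, (f (v, i + 1)).2 = (f (v, i)).2 - 1

/-- The cyclic permutation `a → b → c → a` (for different `a, b, c`). -/
def cycle {H : Type} [DecidableEq H] (a b c : H) : Perm H := swap a b * swap b c

/-- The relations. `iso`: isomorphic vertex-oriented graphs are equal. `as`: `Γ' = - Γ` if `Γ'` is `Γ` with
the cyclic order at one vertex reversed. `ihx`: let `x` and `y = mate x` be at different vertices, let
`a = next x`, `b = next a` be the other half-edges at the vertex of `x`, and let `c = next y`. Then the sum of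
the three graphs obtained from `Γ` by the cyclic permutations of the ends of the edges at `a, b, c` is zero. -/
inductive Rel {n : ℕ} : FreeAbelianGroup (TGraph n) → Prop
  | iso (Γ Γ' : TGraph n) (φ : GIso Γ Γ') (h : ∀ v, Keeps φ.f v) :
      Rel (FreeAbelianGroup.of Γ - FreeAbelianGroup.of Γ')
  | as (Γ Γ' : TGraph n) (φ : GIso Γ Γ') (v : Fin n) (h : Reverses φ.f v)
      (h' : ∀ w, w ≠ v → Keeps φ.f w) :
      Rel (FreeAbelianGroup.of Γ + FreeAbelianGroup.of Γ')
  | ihx (Γ : TGraph n) (x : HalfEdge n) (h : (Γ.mate x).1 ≠ x.1) :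
      Rel (FreeAbelianGroup.of Γ +
        FreeAbelianGroup.of (Γ.move (cycle (next x) (next (next x)) (next (Γ.mate x)))) +
        FreeAbelianGroup.of (Γ.move (cycle (next x) (next (next x)) (next (Γ.mate x)))⁻¹))

/-- The module `A(∅; Z)^(d)`: vertex-oriented trivalent graphs with `2 d` vertices modulo AS and IHX. -/
abbrev AZ (d : ℕ) : Type :=
  FreeAbelianGroup (TGraph (2 * d)) ⧸ AddSubgroup.closure {r : FreeAbelianGroup (TGraph (2 * d)) | Rel r}

/-- The class of a graph. -/
def cls {d : ℕ} (Γ : TGraph (2 * d)) : AZ d := QuotientAddGroup.mk (FreeAbelianGroup.of Γ)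

/-! ### Proofs -/

open Pool.Agent.helper16.GHS

lemma cls_of_rel {d : ℕ} {r : FreeAbelianGroup (TGraph (2 * d))} (h : Rel r) :
    (QuotientAddGroup.mk r : AZ d) = 0 :=
  (QuotientAddGroup.eq_zero_iff r).mpr (AddSubgroup.subset_closure h)

lemma TGraph.ext' {n : ℕ} {Γ Γ' : TGraph n} (h : Γ.mate = Γ'.mate) : Γ = Γ' := by
  cases Γ
  cases Γ'
  cases h
  rfl

lemma keeps_or {n : ℕ} {f : Perm (HalfEdge n)} {σ : Perm (Fin n)} (hf : FP f σ) (v : Fin n) :
    (Keeps f v ∧ ¬ Reverses f v ∧ sg (fun i => (f (v, i)).2) = 1) ∨
      (Reverses f v ∧ ¬ Keeps f v ∧ sg (fun i => (f (v, i)).2) = -1) := by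
  obtain ⟨p, hp⟩ := hf.loc v
  have h2 : (fun i => (f (v, i)).2) = fun i => p i := by
    funext i
    rw [hp]
  have h3 : ∀ p : Perm (Fin 3), ((∀ i, p (i + 1) = p i + 1) ∧ ¬ (∀ i, p (i + 1) = p i - 1) ∧
      sg (fun i => p i) = 1) ∨
      ((∀ i, p (i + 1) = p i - 1) ∧ ¬ (∀ i, p (i + 1) = p i + 1) ∧ sg (fun i => p i) = -1) := by
    decide
  have h4 : Keeps f v ↔ ∀ i, p (i + 1) = p i + 1 := by
    unfold Keeps
    simp only [hp]
  have h5 : Reverses f v ↔ ∀ i, p (i + 1) = p i - 1 := by
    unfold Reverses
    simp only [hp]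
  rw [h4, h5, h2]
  exact h3 p

/-- The class changes by the sign of the isomorphism. -/
lemma cls_iso {d : ℕ} (k : ℕ) : ∀ (Γ Γ' : TGraph (2 * d)) (φ : GIso Γ Γ'),
    Nat.card {v // Reverses φ.f v} = k → cls Γ' = eps φ.f • cls Γ := by
  classical
  induction k with
  | zero =>
    intro Γ Γ' φ hk
    have hF : FP φ.f φ.σ := φ.vertex
    have h1 : ∀ v, ¬ Reverses φ.f v := by
      intro v hv
      have h2 : IsEmpty {v // Reverses φ.f v} := by
        rcases (Nat.card_eq_zero.mp hk) with h | h
        · exact h
        · exact absurd (inferInstance : Finite {v // Reverses φ.f v}) (not_finite_iff_infinite.mpr h)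
      exact h2.false ⟨v, hv⟩
    have h2 : ∀ v, Keeps φ.f v ∧ sg (fun i => (φ.f (v, i)).2) = 1 := by
      intro v
      rcases keeps_or hF v with h | h
      · exact ⟨h.1, h.2.2⟩
      · exact absurd h.1 (h1 v)
    have h3 : eps φ.f = 1 := Finset.prod_eq_one fun v _ => (h2 v).2
    have h4 := cls_of_rel (Rel.iso Γ Γ' φ fun v => (h2 v).1)
    rw [QuotientAddGroup.mk_sub, sub_eq_zero] at h4
    rw [h3, one_smul]
    exact h4.symm
  | succ k ih =>
    intro Γ Γ' φ hk
    have hF : FP φ.f φ.σ := φ.vertex
    obtain ⟨⟨v, hv⟩⟩ : Nonempty {v // Reverses φ.f v} := by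
      by_contra h
      rw [not_nonempty_iff] at h
      rw [Nat.card_of_isEmpty] at hk
      omega
    -- reverse the cyclic order at `v` first
    let s : Perm (HalfEdge (2 * d)) := swap (v, 1) (v, 2)
    have hs : FP s 1 := FP_swap rfl
    have hso : ∀ w, w ≠ v → ∀ i, s (w, i) = (w, i) := by
      intro w hw i
      exact swap_apply_of_ne_of_ne (fun h => hw (Prod.mk.inj h).1) fun h => hw (Prod.mk.inj h).1
    have hs1 : eps s = -1 := eps_swap (fun h => absurd (Prod.mk.inj h).2 (by decide)) rfl
    have hsr : Reverses s v := by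
      have h0 : s (v, 0) = (v, 0) := swap_apply_of_ne_of_ne
        (fun h => absurd (Prod.mk.inj h).2 (by decide)) fun h => absurd (Prod.mk.inj h).2 (by decide)
      have h1 : s (v, 1) = (v, 2) := swap_apply_left _ _
      have h2 : s (v, 2) = (v, 1) := swap_apply_right _ _
      intro i
      fin_cases i
      · show (s (v, 1)).2 = (s (v, 0)).2 - 1
        rw [h1, h0]
        rfl
      · show (s (v, 2)).2 = (s (v, 1)).2 - 1
        rw [h1, h2]
        rfl
      · show (s (v, 0)).2 = (s (v, 2)).2 - 1
        rw [h0, h2]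
        rfl
    have hss : s⁻¹ = s := swap_inv _ _
    let ψ : GIso Γ (Γ.move s) :=
      { f := s
        σ := 1
        vertex := hs
        edge := fun h => by
          show s (Γ.mate h) = s (Γ.mate (s⁻¹ (s h)))
          rw [pis] }
    have h1 := cls_of_rel (Rel.as Γ (Γ.move s) ψ v hsr fun w hw i => by
      show (s (w, i + 1)).2 = (s (w, i)).2 + 1
      rw [hso w hw, hso w hw])
    let χ : GIso (Γ.move s) Γ' :=
      { f := φ.f * s
        σ := φ.σ * 1
        vertex := hF.mul hs
        edge := fun h => by
          show φ.f (s (s (Γ.mate (s⁻¹ h)))) = Γ'.mate (φ.f (s h))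
          have h2 : s (s (Γ.mate (s⁻¹ h))) = Γ.mate (s⁻¹ h) := by
            have h3 := psi s (Γ.mate (s⁻¹ h))
            rwa [hss] at h3
          rw [h2, φ.edge, hss] }
    have hχ : FP χ.f χ.σ := χ.vertex
    have hrev : ∀ w, Reverses χ.f w ↔ Reverses φ.f w ∧ w ≠ v := by
      intro w
      by_cases hw : w = v
      · subst hw
        constructor
        · intro h
          exfalso
          -- the composition of two reversing maps keeps the order
          have h2 : sg (fun i => (χ.f (w, i)).2) = 1 := by
            obtain ⟨p, hp⟩ := hs.loc w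
            obtain ⟨p', hp'⟩ := hF.loc w
            have e1 : (fun i => (χ.f (w, i)).2) = fun i => p' (p i) := by
              funext i
              show (φ.f (s (w, i))).2 = _
              rw [hp, Perm.one_apply, hp']
            have e2 : sg (fun i => p i) = -1 := by
              rcases keeps_or hs w with h3 | h3
              · exact absurd hsr h3.2.1
              · have h4 := h3.2.2
                simp only [hp] at h4
                exact h4
            have e3 : sg (fun i => p' i) = -1 := by
              rcases keeps_or hF w with h3 | h3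
              · exact absurd hv h3.2.1
              · have h4 := h3.2.2
                simp only [hp'] at h4
                exact h4
            rw [e1, sg_comp, e2, e3]
            norm_num
          rcases keeps_or hχ w with h3 | h3
          · exact h3.2.1 h
          · rw [h3.2.2] at h2
            exact absurd h2 (by decide)
        · rintro ⟨-, h⟩
          exact absurd rfl h
      · have h2 : Reverses χ.f w ↔ Reverses φ.f w := by
          unfold Reverses
          have h3 : ∀ i, χ.f (w, i) = φ.f (w, i) := by
            intro i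
            show φ.f (s (w, i)) = _
            rw [hso w hw]
          simp only [h3]
        rw [h2]
        exact ⟨fun h => ⟨h, hw⟩, fun h => h.1⟩
    have hcard : Nat.card {w // Reverses χ.f w} = k := by
      have h2 : Nat.card {w // Reverses χ.f w} + 1 = Nat.card {w // Reverses φ.f w} := by
        rw [Nat.card_eq_fintype_card, Nat.card_eq_fintype_card, Fintype.card_subtype,
          Fintype.card_subtype]
        have h3 : (univ.filter fun w => Reverses χ.f w) =
            (univ.filter fun w => Reverses φ.f w).erase v := by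
          ext w
          rw [Finset.mem_filter, Finset.mem_erase, Finset.mem_filter, hrev]
          tauto
        rw [h3]
        exact Finset.card_erase_add_one (Finset.mem_filter.mpr ⟨Finset.mem_univ _, hv⟩)
      omega
    have h5 := ih (Γ.move s) Γ' χ hcard
    have h6 : eps χ.f = - eps φ.f := by
      show eps (φ.f * s) = _
      rw [eps_mul hF hs, hs1]
      ring
    have h7 : cls (Γ.move s) = - cls Γ := by
      rw [QuotientAddGroup.mk_add] at h1
      exact (neg_eq_of_add_eq_zero_right h1).symm
    rw [h5, h6, h7, smul_neg, neg_smul, neg_neg]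

/-- The class as a function of the involution. -/
noncomputable def FF (d : ℕ) (m : Perm (HalfEdge (2 * d))) : AZ d := by
  classical
  exact if h : Mat m then cls ⟨m, h.1, h.2⟩ else 0

lemma FF_eq {d : ℕ} {m : Perm (HalfEdge (2 * d))} (h : Mat m) : FF d m = cls ⟨m, h.1, h.2⟩ := by
  unfold FF
  rw [dif_pos h]

lemma isWS (d : ℕ) : IsWS (FF d) := by
  constructor
  · intro g σ hg m hm
    rw [FF_eq hm, FF_eq (hm.cj g)]
    exact cls_iso _ (⟨m, hm.1, hm.2⟩ : TGraph (2 * d)) ⟨cj g m, (hm.cj g).1, (hm.cj g).2⟩
      ⟨g, σ, hg, fun h => by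
        show g (m h) = g (m (g⁻¹ (g h)))
        rw [pis]⟩ rfl
  · intro m hm x hx
    rw [FF_eq hm, FF_eq (hm.cj _), FF_eq (hm.cj _)]
    have h1 := cls_of_rel (Rel.ihx (⟨m, hm.1, hm.2⟩ : TGraph (2 * d)) x hx)
    rw [QuotientAddGroup.mk_add, QuotientAddGroup.mk_add] at h1
    exact h1

/-- A vertex-oriented trivalent graph `Γ` with an automorphism `φ` which reverses the cyclic order at an odd
number of vertices is zero in `A(∅; Z)^(d)`. -/
theorem result (d : ℕ) (Γ : TGraph (2 * d)) (φ : GIso Γ Γ)
    (hφ : Odd (Nat.card {v // Reverses φ.f v})) : cls Γ = 0 := by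
  classical
  have hF : FP φ.f φ.σ := φ.vertex
  have hm : Mat Γ.mate := ⟨Γ.mate_mate, Γ.mate_ne⟩
  have h1 : eps φ.f = -1 := by
    have h2 : eps φ.f = ∏ v, if Reverses φ.f v then (-1 : ℤ) else 1 := by
      refine Finset.prod_congr rfl fun v _ => ?_
      rcases keeps_or hF v with h | h
      · rw [if_neg h.2.1, h.2.2]
      · rw [if_pos h.1, h.2.2]
    rw [h2, Finset.prod_ite, Finset.prod_const_one, mul_one, Finset.prod_const]
    rw [Nat.card_eq_fintype_card, Fintype.card_subtype] at hφ
    exact hφ.neg_one_pow
  have h2 : cj φ.f Γ.mate = Γ.mate := by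
    ext1 h
    rw [cj_apply, φ.edge, psi]
  have h3 := (isWS d).main hm hF h2 h1
  rw [FF_eq hm] at h3
  exact h3

end Pool.Agent.Results.MP_bf3f21_gt.SymmetricGraphs
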